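import Mathlib

/-! Composition of steps `C(K) = C(k) + f(B(K))` and finitely generated abelian groups. -/

set_option autoImplicit false

namespace Pool.Agent.H.MP_ac3185_nt.h79

/-- The step property of a homomorphism `f : B → C` with respect to the subgroups
`Bk ≤ BK` of `B` and `Ck ≤ CK` of `C`. -/
def StepProp {B C : Type*} [AddCommGroup B] [AddCommGroup C] (f : B →+ C)
    (BK : AddSubgroup B) (Ck CK : AddSubgroup C) : Prop :=
  ∀ P ∈ CK, ∃ Q ∈ Ck, ∃ R ∈ BK, P = Q + f R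

theorem StepProp.comp {B C D : Type*} [AddCommGroup B] [AddCommGroup C] [AddCommGroup D]
    {f : B →+ C} {g : C →+ D} {BK : AddSubgroup B} {Ck CK : AddSubgroup C}
    {Dk DK : AddSubgroup D} (hf : StepProp f BK Ck CK) (hg : StepProp g CK Dk DK)
    (hk : ∀ x ∈ Ck, g x ∈ Dk) : StepProp (g.comp f) BK Dk DK := by
  intro P hP
  obtain ⟨Q, hQ, R, hR, rfl⟩ := hg P hP
  obtain ⟨S, hS, T, hT, rfl⟩ := hf R hR
  refine ⟨Q + g S, add_mem hQ (hk S hS), T, hT, ?_⟩
  rw [map_add, AddMonoidHom.comp_apply, add_assoc]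

theorem StepProp.id {B : Type*} [AddCommGroup B] (Bk BK : AddSubgroup B) :
    StepProp (AddMonoidHom.id B) BK Bk BK := fun P hP =>
  ⟨0, zero_mem _, P, hP, by simp⟩

/-- A finitely generated abelian group `M` with `M = N + 2 M`: there is an odd integer which maps
`M` to `N`. -/
theorem exists_odd_smul_mem {M : Type*} [AddCommGroup M] [Module.Finite ℤ M]
    (N : Submodule ℤ M) (h : ∀ x : M, ∃ y ∈ N, ∃ z : M, x = y + (2 : ℤ) • z) :
    ∃ n : ℤ, Odd n ∧ ∀ x : M, n • x ∈ N := by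
  have hfg : (⊤ : Submodule ℤ (M ⧸ N)).FG := Module.Finite.fg_top
  have hle : (⊤ : Submodule ℤ (M ⧸ N)) ≤ (Ideal.span {(2 : ℤ)}) • (⊤ : Submodule ℤ (M ⧸ N)) := by
    intro q _
    obtain ⟨x, rfl⟩ := Submodule.Quotient.mk_surjective N q
    obtain ⟨y, hy, z, rfl⟩ := h x
    have : (Submodule.Quotient.mk (y + (2 : ℤ) • z) : M ⧸ N) =
        (2 : ℤ) • (Submodule.Quotient.mk z : M ⧸ N) := by
      rw [Submodule.Quotient.mk_add, (Submodule.Quotient.mk_eq_zero N).2 hy, zero_add]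
      rfl
    rw [this]
    exact Submodule.smul_mem_smul (Ideal.mem_span_singleton_self 2) trivial
  obtain ⟨r, hr, hr'⟩ := Submodule.exists_sub_one_mem_and_smul_eq_zero_of_fg_of_le_smul
    (Ideal.span {(2 : ℤ)}) ⊤ hfg hle
  refine ⟨r, ?_, fun x => ?_⟩
  · rw [Ideal.mem_span_singleton] at hr
    obtain ⟨m, hm⟩ := hr
    exact ⟨m, by linarith⟩
  · have := hr' (Submodule.Quotient.mk x) trivial
    rw [← Submodule.Quotient.mk_smul] at this
    exact (Submodule.Quotient.mk_eq_zero N).1 this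

theorem rank_eq_of_odd_smul_mem {M : Type*} [AddCommGroup M] (N : Submodule ℤ M)
    (n : ℤ) (hn : n ≠ 0) (h : ∀ x : M, n • x ∈ N) :
    Module.rank ℤ N = Module.rank ℤ M := by
  have h0 : Module.rank ℤ (M ⧸ N) = 0 := by
    rw [rank_eq_zero_iff]
    intro q
    obtain ⟨x, rfl⟩ := Submodule.Quotient.mk_surjective N q
    refine ⟨n, hn, ?_⟩
    rw [← Submodule.Quotient.mk_smul]
    exact (Submodule.Quotient.mk_eq_zero N).2 (h x)
  have := rank_quotient_add_rank_of_isDomain N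
  rw [h0, zero_add] at this
  exact this

/-- If `M` is finitely generated and `M = N + 2 M` then `M / N` is finite of odd order. -/
theorem finite_quotient_odd {M : Type*} [AddCommGroup M] [Module.Finite ℤ M]
    (N : Submodule ℤ M) (h : ∀ x : M, ∃ y ∈ N, ∃ z : M, x = y + (2 : ℤ) • z) :
    Finite (M ⧸ N) ∧ Odd (Nat.card (M ⧸ N)) := by
  obtain ⟨n, hn, hN⟩ := exists_odd_smul_mem N h
  have hn0 : n ≠ 0 := by rintro rfl; exact absurd hn (by decide)
  have htor : AddMonoid.IsTorsion (M ⧸ N) := by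
    intro q
    obtain ⟨x, rfl⟩ := Submodule.Quotient.mk_surjective N q
    rw [isOfFinAddOrder_iff_zsmul_eq_zero]
    refine ⟨n, hn0, ?_⟩
    rw [← Submodule.Quotient.mk_smul]
    exact (Submodule.Quotient.mk_eq_zero N).2 (hN x)
  have hfin : Finite (M ⧸ N) := by
    have : AddGroup.FG (M ⧸ N) := by
      rw [← Module.Finite.iff_addGroup_fg]; infer_instance
    exact AddCommGroup.finite_of_fg_torsion _ htor
  refine ⟨hfin, ?_⟩
  by_contra hodd
  rw [Nat.not_odd_iff_even, even_iff_two_dvd] at hodd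
  haveI : Fact (Nat.Prime 2) := ⟨Nat.prime_two⟩
  obtain ⟨q, hq⟩ := exists_prime_addOrderOf_dvd_card' 2 hodd
  have hq2 : (n : ℤ) • q = 0 := by
    obtain ⟨x, rfl⟩ := Submodule.Quotient.mk_surjective N q
    rw [← Submodule.Quotient.mk_smul]
    exact (Submodule.Quotient.mk_eq_zero N).2 (hN x)
  have hd : ((addOrderOf q : ℕ) : ℤ) ∣ n := addOrderOf_dvd_iff_zsmul_eq_zero.2 hq2
  rw [hq] at hd
  obtain ⟨m, hm⟩ := hn
  omega

end Pool.Agent.H.MP_ac3185_nt.h79
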