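import Pool.Agent.H.MP_ac3185_nt.R.Defs

/-! Elements which are units at a prime of the ring of algebraic integers. -/

set_option autoImplicit false

open CategoryTheory AlgebraicGeometry NumberField IsDedekindDomain
open scoped MonObj

namespace Pool.Agent.H.MP_ac3185_nt

universe u

section field

variable {L : Type u} [Field L]

/-- `x` is a unit of the local ring of `𝓞 L` at `𝔔`. -/
def UnitAt (𝔔 : Ideal (𝓞 L)) (x : L) : Prop :=
  ∃ a b : 𝓞 L, a ∉ 𝔔 ∧ b ∉ 𝔔 ∧ x * b = a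

theorem UnitAt.ne_zero {𝔔 : Ideal (𝓞 L)} {x : L} (h : UnitAt 𝔔 x) : x ≠ 0 := by
  rintro rfl
  obtain ⟨a, b, ha, -, h⟩ := h
  rw [zero_mul] at h
  have : a = 0 := RingOfIntegers.ext h.symm
  exact ha (this ▸ 𝔔.zero_mem)

theorem UnitAt.of_not_mem {𝔔 : Ideal (𝓞 L)} (h1 : 𝔔 ≠ ⊤) {a : 𝓞 L} (ha : a ∉ 𝔔) :
    UnitAt 𝔔 (a : L) :=
  ⟨a, 1, ha, fun h => h1 ((Ideal.eq_top_iff_one _).2 h), by simp⟩

theorem UnitAt.one {𝔔 : Ideal (𝓞 L)} (h1 : 𝔔 ≠ ⊤) : UnitAt 𝔔 (1 : L) :=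
  ⟨1, 1, fun h => h1 ((Ideal.eq_top_iff_one _).2 h), fun h => h1 ((Ideal.eq_top_iff_one _).2 h),
    by simp⟩

theorem UnitAt.mul {𝔔 : Ideal (𝓞 L)} [h𝔔 : 𝔔.IsPrime] {x y : L} (hx : UnitAt 𝔔 x)
    (hy : UnitAt 𝔔 y) : UnitAt 𝔔 (x * y) := by
  obtain ⟨a, b, ha, hb, h⟩ := hx
  obtain ⟨c, d, hc, hd, h'⟩ := hy
  refine ⟨a * c, b * d, fun hh => ?_, fun hh => ?_, ?_⟩
  · rcases h𝔔.mem_or_mem hh with h1 | h1
    · exact ha h1
    · exact hc h1
  · rcases h𝔔.mem_or_mem hh with h1 | h1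
    · exact hb h1
    · exact hd h1
  · show x * y * ((b : L) * (d : L)) = (a : L) * (c : L)
    rw [← h, ← h']
    ring

theorem UnitAt.inv {𝔔 : Ideal (𝓞 L)} {x : L} (hx : UnitAt 𝔔 x) : UnitAt 𝔔 x⁻¹ := by
  have h0 := hx.ne_zero
  obtain ⟨a, b, ha, hb, h⟩ := hx
  refine ⟨b, a, hb, ha, ?_⟩
  rw [← h, ← mul_assoc, inv_mul_cancel₀ h0, one_mul]

theorem UnitAt.div {𝔔 : Ideal (𝓞 L)} [𝔔.IsPrime] {x y : L} (hx : UnitAt 𝔔 x)
    (hy : UnitAt 𝔔 y) : UnitAt 𝔔 (x / y) := by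
  rw [div_eq_mul_inv]; exact hx.mul hy.inv

theorem UnitAt.pow {𝔔 : Ideal (𝓞 L)} [h𝔔 : 𝔔.IsPrime] {x : L} (hx : UnitAt 𝔔 x) (n : ℕ) :
    UnitAt 𝔔 (x ^ n) := by
  induction n with
  | zero => rw [pow_zero]; exact UnitAt.one h𝔔.ne_top
  | succ n ih => rw [pow_succ]; exact ih.mul hx

theorem UnitAt.prod {𝔔 : Ideal (𝓞 L)} [h𝔔 : 𝔔.IsPrime] {J : Type*} (s : Finset J) (f : J → L)
    (h : ∀ i ∈ s, UnitAt 𝔔 (f i)) : UnitAt 𝔔 (∏ i ∈ s, f i) := by
  classical
  induction s using Finset.induction_on with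
  | empty => rw [Finset.prod_empty]; exact UnitAt.one h𝔔.ne_top
  | insert a s ha ih =>
    rw [Finset.prod_insert ha]
    exact (h a (Finset.mem_insert_self a s)).mul
      (ih fun i hi => h i (Finset.mem_insert_of_mem hi))

theorem UnitAt.of_pow {𝔔 : Ideal (𝓞 L)} [h𝔔 : 𝔔.IsPrime] {x : L} {n : ℕ} (hn : 0 < n)
    (hx : UnitAt 𝔔 (x ^ n)) : UnitAt 𝔔 x := by
  obtain ⟨a, b, ha, hb, h⟩ := hx
  obtain ⟨m, rfl⟩ : ∃ m, n = m + 1 := ⟨n - 1, by omega⟩
  have h1 : (x * b) ^ (m + 1) = ((a * b ^ m : 𝓞 L) : L) := by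
    show (x * (b : L)) ^ (m + 1) = (a : L) * (b : L) ^ m
    rw [← h, mul_pow, pow_succ (b : L)]
    ring
  have hint : IsIntegral ℤ (x * (b : L)) := by
    refine IsIntegral.of_pow (Nat.succ_pos m) ?_
    rw [h1]
    exact RingOfIntegers.isIntegral_coe _
  refine ⟨⟨x * b, hint⟩, b, fun hmem => ?_, hb, rfl⟩
  have h2 : (⟨x * b, hint⟩ : 𝓞 L) ^ (m + 1) = a * b ^ m := by
    apply RingOfIntegers.ext
    rw [← h1]
    rfl
  have h3 : a * b ^ m ∈ 𝔔 := by
    rw [← h2]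
    exact Ideal.pow_mem_of_mem _ hmem _ (Nat.succ_pos m)
  rcases h𝔔.mem_or_mem h3 with h4 | h4
  · exact ha h4
  · exact hb (h𝔔.mem_of_pow_mem _ h4)

theorem UnitAt.neg {𝔔 : Ideal (𝓞 L)} {x : L} (hx : UnitAt 𝔔 x) : UnitAt 𝔔 (-x) := by
  obtain ⟨a, b, ha, hb, h⟩ := hx
  refine ⟨-a, b, fun hh => ha (by simpa using 𝔔.neg_mem hh), hb, ?_⟩
  show -x * (b : L) = -(a : L)
  rw [← h, neg_mul]

end field

section gal

variable {K : Type u} [Field K] {L : Type u} [Field L] [Algebra K L]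

theorem UnitAt.gal {𝔔 : Ideal (𝓞 L)} {x : L} (hx : UnitAt 𝔔 x) {g : L ≃ₐ[K] L}
    (hg : g ∈ decomp K 𝔔) : UnitAt 𝔔 (g x) := by
  obtain ⟨a, b, ha, hb, h⟩ := hx
  refine ⟨galInt g a, galInt g b, fun hh => ha ((hg a).1 hh), fun hh => hb ((hg b).1 hh), ?_⟩
  show g x * g b = g a
  rw [← map_mul, h]

/-- An element of the inertia group of a prime `𝔔` which does not contain `2` and which maps `s`
to `± s` fixes `s`, if the square of `s` is a unit at `𝔔`. -/
theorem UnitAt.fixed {𝔔 : Ideal (𝓞 L)} [h𝔔 : 𝔔.IsPrime] (h2 : (2 : 𝓞 L) ∉ 𝔔) {s : L}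
    (hs : UnitAt 𝔔 (s ^ 2)) {g : L ≃ₐ[K] L} (hg : g ∈ inertia K 𝔔) (h : g s = s ∨ g s = -s) :
    g s = s := by
  rcases h with h | h
  · exact h
  exfalso
  obtain ⟨a, b, ha, hb, hab⟩ := UnitAt.of_pow (n := 2) (by norm_num) hs
  have h3 : galInt g a * b = -(a * galInt g b) := by
    apply RingOfIntegers.ext
    show g a * (b : L) = -((a : L) * g b)
    rw [← hab, map_mul, h]
    ring
  have h4 : (2 : 𝓞 L) * (a * b) ∈ 𝔔 := by
    have e1 := hg a
    have e2 := hg b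
    have : (2 : 𝓞 L) * (a * b) = -((galInt g a - a) * b) - (a * (galInt g b - b)) := by
      have : galInt g a * b + a * galInt g b = 0 := by rw [h3]; ring
      linear_combination (this : galInt g a * b + a * galInt g b = 0)
    rw [this]
    exact 𝔔.sub_mem (𝔔.neg_mem (𝔔.mul_mem_right _ e1)) (𝔔.mul_mem_left _ e2)
  rcases h𝔔.mem_or_mem h4 with h5 | h5
  · exact h2 h5
  · rcases h𝔔.mem_or_mem h5 with h6 | h6
    · exact ha h6
    · exact hb h6

end gal

section dedekind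

/-- A uniformizer `π` at the prime `w` of the Dedekind domain `R`: up to units of the local ring
every nonzero element is a power of `π`. -/
theorem exists_uniformizer {R : Type*} [CommRing R] [IsDedekindDomain R]
    (w : Ideal R) [hw : w.IsPrime] (hw0 : w ≠ ⊥) :
    ∃ π : R, π ∈ w ∧ ∀ x : R, x ≠ 0 → ∃ (n : ℕ) (α β : R), α ∉ w ∧ β ∉ w ∧ β * x = α * π ^ n := by
  let S := Localization.AtPrime w
  haveI : IsDiscreteValuationRing S :=
    IsLocalization.AtPrime.isDiscreteValuationRing_of_dedekind_domain R hw0 S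
  obtain ⟨ϖ, hϖ⟩ := IsDiscreteValuationRing.exists_irreducible S
  obtain ⟨⟨π, t⟩, hπ⟩ := IsLocalization.surj (M := w.primeCompl) ϖ
  have ht : IsUnit (algebraMap R S t) := IsLocalization.map_units S t
  have hπ' : algebraMap R S π = ϖ * algebraMap R S t := hπ.symm
  have hirr : Irreducible (algebraMap R S π) := by
    rw [hπ']
    exact (irreducible_mul_isUnit ht).2 hϖ
  refine ⟨π, ?_, fun x hx => ?_⟩
  · by_contra hcon
    exact hirr.not_isUnit (IsLocalization.map_units S (⟨π, hcon⟩ : w.primeCompl))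
  · have hinj : Function.Injective (algebraMap R S) :=
      IsLocalization.injective S w.primeCompl_le_nonZeroDivisors
    have hx' : algebraMap R S x ≠ 0 := fun h => hx (hinj (by rw [h, map_zero]))
    obtain ⟨n, u, hu⟩ := IsDiscreteValuationRing.eq_unit_mul_pow_irreducible hx' hirr
    obtain ⟨⟨a, b⟩, hab⟩ := IsLocalization.surj (M := w.primeCompl) (u : S)
    have hab' : (u : S) * algebraMap R S b = algebraMap R S a := hab
    refine ⟨n, a, b, ?_, b.2, ?_⟩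
    · intro ha
      have h1 : IsUnit (algebraMap R S a) := by
        rw [← hab']
        exact u.isUnit.mul (IsLocalization.map_units S b)
      exact (IsLocalization.AtPrime.isUnit_to_map_iff S w a).1 h1 ha
    · apply hinj
      rw [map_mul, map_mul, map_pow, hu, ← hab']
      ring

end dedekind

section numberField

variable {K : Type u} [Field K] [NumberField K]

theorem UnitAt.gal_div_int {M : Type u} [Field M] [NumberField M] {L : Type u} [Field L]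
    [Algebra K L] [Algebra M L] (𝔔 : Ideal (𝓞 L)) [h𝔔 : 𝔔.IsPrime] {t : L ≃ₐ[K] L}
    (ht : t ∈ decomp K 𝔔) (x : 𝓞 M) (hx : x ≠ 0) :
    UnitAt 𝔔 (t (algebraMap M L x) / algebraMap M L x) := by
  set f : 𝓞 M →+* 𝓞 L := algebraMap (𝓞 M) (𝓞 L) with hf
  have hfc : ∀ y : 𝓞 M, ((f y : 𝓞 L) : L) = algebraMap M L y := fun _ => rfl
  by_cases hw : 𝔔.comap f = ⊥
  · have h1 : f x ∉ 𝔔 := by
      intro h
      have : x ∈ 𝔔.comap f := h
      rw [hw] at this
      exact hx this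
    have h2 : UnitAt 𝔔 (algebraMap M L x) := by
      rw [← hfc]; exact UnitAt.of_not_mem h𝔔.ne_top h1
    exact (h2.gal ht).div h2
  · obtain ⟨π, hπ, hall⟩ := exists_uniformizer (𝔔.comap f) hw
    obtain ⟨N, hN, hNw⟩ : ∃ N : ℕ, N ≠ 0 ∧ ((N : ℕ) : 𝓞 M) ∈ 𝔔.comap f := by
      refine ⟨Ideal.absNorm (𝔔.comap f), ?_, Ideal.absNorm_mem _⟩
      rw [Ne, Ideal.absNorm_eq_zero_iff]
      exact hw
    have hN0 : ((N : ℕ) : 𝓞 M) ≠ 0 := by exact_mod_cast hN
    obtain ⟨e, α', β', hα', hβ', hNe⟩ := hall (N : 𝓞 M) hN0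
    obtain ⟨n, α, β, hα, hβ, hxn⟩ := hall x hx
    have he : 0 < e := by
      rcases Nat.eq_zero_or_pos e with h0 | h0
      · exfalso
        rw [h0, pow_zero, mul_one] at hNe
        exact hα' (hNe ▸ Ideal.mul_mem_left _ _ hNw)
      · exact h0
    have key : x ^ e * (β ^ e * α' ^ n) = (N : 𝓞 M) ^ n * (α ^ e * β' ^ n) := by
      have h1 : β ^ e * x ^ e = α ^ e * (π ^ n) ^ e := by rw [← mul_pow, hxn, mul_pow]
      have h2 : β' ^ n * (N : 𝓞 M) ^ n = α' ^ n * (π ^ e) ^ n := by rw [← mul_pow, hNe, mul_pow]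
      calc x ^ e * (β ^ e * α' ^ n) = (β ^ e * x ^ e) * α' ^ n := by ring
        _ = α ^ e * (α' ^ n * (π ^ e) ^ n) := by rw [h1]; ring
        _ = (N : 𝓞 M) ^ n * (α ^ e * β' ^ n) := by rw [← h2]; ring
    have hNL : ((N : ℕ) : L) ≠ 0 := by
      haveI : CharZero L := charZero_of_injective_algebraMap (algebraMap K L).injective
      exact_mod_cast hN
    have hunit : UnitAt 𝔔 (algebraMap M L x ^ e / (N : L) ^ n) := by
      refine ⟨f (α ^ e * β' ^ n), f (β ^ e * α' ^ n), ?_, ?_, ?_⟩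
      · intro h
        have h' : α ^ e * β' ^ n ∈ 𝔔.comap f := h
        rcases (Ideal.IsPrime.comap f : (𝔔.comap f).IsPrime).mem_or_mem h' with h1 | h1
        · exact hα ((Ideal.IsPrime.comap f : (𝔔.comap f).IsPrime).mem_of_pow_mem _ h1)
        · exact hβ' ((Ideal.IsPrime.comap f : (𝔔.comap f).IsPrime).mem_of_pow_mem _ h1)
      · intro h
        have h' : β ^ e * α' ^ n ∈ 𝔔.comap f := h
        rcases (Ideal.IsPrime.comap f : (𝔔.comap f).IsPrime).mem_or_mem h' with h1 | h1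
        · exact hβ ((Ideal.IsPrime.comap f : (𝔔.comap f).IsPrime).mem_of_pow_mem _ h1)
        · exact hα' ((Ideal.IsPrime.comap f : (𝔔.comap f).IsPrime).mem_of_pow_mem _ h1)
      · rw [hfc, hfc]
        have := congrArg (fun z : 𝓞 M => algebraMap M L (z : M)) key
        simp only [map_mul, map_pow, map_natCast] at this ⊢
        rw [div_mul_eq_mul_div, div_eq_iff (pow_ne_zero _ hNL)]
        linear_combination this
    have hunit2 := hunit.gal ht
    rw [map_div₀, map_pow, map_pow, map_natCast] at hunit2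
    have h3 := hunit2.div hunit
    have h4 : (t (algebraMap M L x)) ^ e / (N : L) ^ n / (algebraMap M L x ^ e / (N : L) ^ n) =
        (t (algebraMap M L x) / algebraMap M L x) ^ e := by
      rw [div_pow]
      field_simp
    rw [h4] at h3
    exact UnitAt.of_pow he h3

theorem UnitAt.gal_div {M : Type u} [Field M] [NumberField M] {L : Type u} [Field L]
    [Algebra K L] [Algebra M L] (𝔔 : Ideal (𝓞 L)) [h𝔔 : 𝔔.IsPrime] {t : L ≃ₐ[K] L}
    (ht : t ∈ decomp K 𝔔) (a : M) (ha : a ≠ 0) :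
    UnitAt 𝔔 (t (algebraMap M L a) / algebraMap M L a) := by
  obtain ⟨x, y, hy, rfl⟩ := IsFractionRing.div_surjective (A := 𝓞 M) a
  have hy0 : y ≠ 0 := nonZeroDivisors.ne_zero hy
  have hx0 : x ≠ 0 := by
    rintro rfl
    exact ha (by rw [map_zero, zero_div])
  have h1 := UnitAt.gal_div_int (K := K) 𝔔 ht x hx0
  have h2 := UnitAt.gal_div_int (K := K) 𝔔 ht y hy0
  have h3 := h1.div h2
  have e : t (algebraMap M L (algebraMap (𝓞 M) M x / algebraMap (𝓞 M) M y)) /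
      algebraMap M L (algebraMap (𝓞 M) M x / algebraMap (𝓞 M) M y) =
      t (algebraMap M L x) / algebraMap M L x / (t (algebraMap M L y) / algebraMap M L y) := by
    rw [map_div₀, map_div₀]
    exact div_div_div_comm _ _ _ _
  rw [e]
  exact h3

end numberField

end Pool.Agent.H.MP_ac3185_nt
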